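import Pool.Agent.H73.CBE.Stmts

/-!
Row HDA of the board `cbe` (MP_e1af46_an): `H` is differentiable, homogeneity of its derivative.
-/

set_option autoImplicit false

open Set Filter Topology

namespace Pool.CBE

theorem hda_sm {n : ℕ} (t : ℝ) (y : E n) : ((t : ℝ) : ℂ) • y = t • y := by
  ext i
  simp

theorem HDA_thm (h1 : SDFStmt) (h2 : FEQStmt) (h3 : HPRStmt) : HDAStmt := by
  intro n f d η C θ a hyp
  obtain ⟨-, hc, m, M, -, -, hM⟩ := h3 n f d η C θ a hyp
  obtain ⟨-, hF⟩ := h2 n f d η C θ a hyp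
  have hS := h1 n f d η C θ a hyp
  have hct : ∀ (t : ℝ) (y : E n), H f d (t • y) = t ^ 2 * H f d y := by
    intro t y
    rw [← hda_sm, hc, Complex.norm_real, Real.norm_eq_abs, sq_abs]
  have h0 : HasFDerivAt (H f d) (0 : E n →L[ℝ] ℝ) 0 := by
    refine Asymptotics.IsBigO.hasFDerivAt (n := 2) ?_ one_lt_two
    refine Asymptotics.IsBigO.of_bound M (Filter.Eventually.of_forall fun z => ?_)
    obtain ⟨-, hz⟩ := hM z
    have hz0 : 0 ≤ H f d z := mul_nonneg (sq_nonneg _) (Real.exp_pos _).le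
    rw [sub_zero, Real.norm_eq_abs, abs_of_nonneg hz0, Real.norm_eq_abs,
      abs_of_nonneg (sq_nonneg ‖z‖)]
    exact hz
  have hdS : ∀ z : E n, z ≠ 0 → DifferentiableAt ℝ (S f d) z := by
    intro z hz
    have hn : 0 < ‖z‖ := norm_pos_iff.2 hz
    have hn' : (0 : ℝ) < ‖z‖⁻¹ := inv_pos.2 hn
    have hu : ‖(‖z‖⁻¹ : ℝ) • z‖ = 1 := by
      rw [norm_smul, Real.norm_eq_abs, abs_of_pos hn', inv_mul_cancel₀ hn.ne']
    have h4 : DifferentiableAt ℝ (S f d) ((‖z‖⁻¹ : ℝ) • z) :=
      (hS _ (by rw [hu]; norm_num)).1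
    have h5 : DifferentiableAt ℝ (fun y : E n => S f d ((‖z‖⁻¹ : ℝ) • y)) z :=
      DifferentiableAt.comp z h4 (differentiableAt_id.const_smul (‖z‖⁻¹ : ℝ))
    refine h5.congr_of_eventuallyEq ?_
    filter_upwards [isOpen_ne.mem_nhds hz] with y hy
    rw [← hda_sm]
    refine ((hF y hy).2 _ ?_).symm
    exact_mod_cast hn'.ne'
  have hd : ∀ z : E n, DifferentiableAt ℝ (H f d) z := by
    intro z
    by_cases hz : z = 0
    · rw [hz]
      exact h0.differentiableAt
    · have h6 : DifferentiableAt ℝ (fun y : E n => ‖y‖ ^ 2) z :=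
        ((contDiff_norm_sq (n := 1) ℂ).differentiable one_ne_zero) z
      exact h6.mul (hdS z hz).exp
  refine ⟨hd, ?_, h0.fderiv⟩
  intro t z ht
  have h7 : HasFDerivAt (fun y : E n => t • y) (t • ContinuousLinearMap.id ℝ (E n)) z :=
    (hasFDerivAt_id z).const_smul t
  have h8 : HasFDerivAt (fun y : E n => H f d (t • y))
      ((fderiv ℝ (H f d) (t • z)).comp (t • ContinuousLinearMap.id ℝ (E n))) z :=
    (hd (t • z)).hasFDerivAt.comp z h7
  have h9 : HasFDerivAt (fun y : E n => H f d (t • y)) ((t ^ 2) • fderiv ℝ (H f d) z) z := by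
    have h10 : (fun y : E n => H f d (t • y)) = fun y => (t ^ 2) • H f d y := by
      funext y
      rw [hct, smul_eq_mul]
    rw [h10]
    exact (hd z).hasFDerivAt.const_smul (t ^ 2)
  have h11 := h8.unique h9
  ext v
  have h12 := congrArg (fun L : E n →L[ℝ] ℝ => L v) h11
  simp only [ContinuousLinearMap.comp_apply, ContinuousLinearMap.smul_apply,
    ContinuousLinearMap.id_apply, map_smul, smul_eq_mul] at h12 ⊢
  have h13 : t * (fderiv ℝ (H f d) (t • z) v) = t * (t * (fderiv ℝ (H f d) z v)) := by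
    rw [h12]
    ring
  exact mul_left_cancel₀ ht.ne' h13

end Pool.CBE
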